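import Pool.Agent.H190R3.WeiRed

/-! Applying the table of a machine to a point is itself done by a machine. -/

namespace Pool.Agent.X225.Tj

open Pool.Agent.H190R3.Wei

/-- The table of a word function, as a point of Baire space. -/
def tb (φ : List ℕ → List ℕ) : ℕ → ℕ :=
  fun n => Encodable.encode (φ (Denumerable.ofNat (List ℕ) n))

/-- One step of the evaluation of a table. -/
def stp (μ ξ : List ℕ) (out : List ℕ) (s : ℕ) : List ℕ :=
  if Encodable.encode (ξ.take s.unpair.1) < s then
    if (Denumerable.ofNat (List ℕ) (μ.getD (Encodable.encode (ξ.take s.unpair.1)) 0)).take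
        out.length = out then
      Denumerable.ofNat (List ℕ) (μ.getD (Encodable.encode (ξ.take s.unpair.1)) 0)
    else out
  else out

/-- Evaluation of a table at a point, as far as the given words allow. -/
def app2 (μ ξ : List ℕ) : List ℕ := (List.range (min μ.length ξ.length)).foldl (stp μ ξ) []

/-- The universal machine, applying a table to a point. -/
def app (σ : List ℕ) : List ℕ := app2 (ev σ) (od σ)

lemma le_stp (μ ξ out : List ℕ) (s : ℕ) : out <+: stp μ ξ out s := by
  unfold stp
  split_ifs with h1 h2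
  · exact (List.prefix_iff_eq_take.2 h2.symm)
  · exact List.prefix_rfl
  · exact List.prefix_rfl

lemma le_foldl (μ ξ : List ℕ) (l : List ℕ) : ∀ out, out <+: l.foldl (stp μ ξ) out := by
  induction l with
  | nil => intro out; exact List.prefix_rfl
  | cons a l ih => intro out; exact (le_stp μ ξ out a).trans (ih _)

lemma stp_congr {μ μ' ξ ξ' : List ℕ} (h : μ <+: μ') (h' : ξ <+: ξ') (out : List ℕ) {s : ℕ}
    (h1 : s < μ.length) (h2 : s < ξ.length) : stp μ ξ out s = stp μ' ξ' out s := by
  have e : ξ.take s.unpair.1 = ξ'.take s.unpair.1 := by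
    obtain ⟨t, rfl⟩ := h'
    rw [List.take_append_of_le_length]
    exact (Nat.unpair_left_le s).trans h2.le
  unfold stp
  rw [← e]
  by_cases hs : Encodable.encode (ξ.take s.unpair.1) < s
  · rw [if_pos hs, if_pos hs, getD_of_isPrefix h _ 0 (hs.trans h1)]
  · rw [if_neg hs, if_neg hs]

lemma foldl_congr' {μ μ' ξ ξ' : List ℕ} (h : μ <+: μ') (h' : ξ <+: ξ') (l : List ℕ)
    (hl : ∀ s ∈ l, s < μ.length ∧ s < ξ.length) :
    ∀ out, l.foldl (stp μ ξ) out = l.foldl (stp μ' ξ') out := by
  induction l with
  | nil => intro out; rfl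
  | cons a l ih =>
    intro out
    simp only [List.foldl_cons]
    rw [stp_congr h h' out (hl a (by simp)).1 (hl a (by simp)).2]
    exact ih (fun s hs => hl s (by simp [hs])) _

lemma app2_mono {μ μ' ξ ξ' : List ℕ} (h : μ <+: μ') (h' : ξ <+: ξ') :
    app2 μ ξ <+: app2 μ' ξ' := by
  have hl := h.length_le
  have hl' := h'.length_le
  obtain ⟨k, hk⟩ := Nat.exists_eq_add_of_le
    (show min μ.length ξ.length ≤ min μ'.length ξ'.length by omega)
  unfold app2
  rw [hk, List.range_add, List.foldl_append]
  have e := foldl_congr' h h' (List.range (min μ.length ξ.length)) (by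
    intro s hs
    have := List.mem_range.1 hs
    omega) []
  rw [e]
  exact le_foldl _ _ _ _

lemma primrec_app2 : Primrec₂ app2 := by
  have main : Primrec (fun x : List ℕ × List ℕ =>
      (List.range (min x.1.length x.2.length)).foldl (fun out s => stp x.1 x.2 out s)
        ([] : List ℕ)) := by
   refine Primrec.list_foldl (h := fun (x : List ℕ × List ℕ) (y : List ℕ × ℕ) =>
    stp x.1 x.2 y.1 y.2) ?_ (Primrec.const []) ?_
   · exact Primrec.list_range.comp (Primrec.nat_min.comp (Primrec.list_length.comp Primrec.fst)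
      (Primrec.list_length.comp Primrec.snd))
   · -- (μ, ξ), (out, s)
    have hs : Primrec (fun x : (List ℕ × List ℕ) × (List ℕ × ℕ) => x.2.2) :=
      Primrec.snd.comp Primrec.snd
    have ho : Primrec (fun x : (List ℕ × List ℕ) × (List ℕ × ℕ) => x.2.1) :=
      Primrec.fst.comp Primrec.snd
    have hc : Primrec (fun x : (List ℕ × List ℕ) × (List ℕ × ℕ) =>
        Encodable.encode (x.1.2.take x.2.2.unpair.1)) :=
      Primrec.encode.comp (Primrec.list_take.comp (Primrec.fst.comp (Primrec.unpair.comp hs))
        (Primrec.snd.comp Primrec.fst))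
    have hw : Primrec (fun x : (List ℕ × List ℕ) × (List ℕ × ℕ) =>
        Denumerable.ofNat (List ℕ) (x.1.1.getD (Encodable.encode (x.1.2.take x.2.2.unpair.1)) 0)) :=
      (Primrec.ofNat (List ℕ)).comp ((Primrec.list_getD 0).comp (Primrec.fst.comp Primrec.fst) hc)
    refine Primrec.ite ?_ (Primrec.ite ?_ hw ho) ho
    · exact Primrec.nat_lt.comp hc hs
    · exact Primrec.eq.comp (Primrec.list_take.comp (Primrec.list_length.comp ho) hw) ho
  exact main

lemma isMachine_app : IsMachine app :=
  ⟨primrec_app2.to_comp.comp isMachine_ev.comp isMachine_od.comp,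
    fun a b h => app2_mono (isMachine_ev.mono a b h) (isMachine_od.mono a b h)⟩

/-- The infinite version of `stp`. -/
def stpI (M x : ℕ → ℕ) (out : List ℕ) (s : ℕ) : List ℕ :=
  if Encodable.encode (init x s.unpair.1) < s then
    if (Denumerable.ofNat (List ℕ) (M (Encodable.encode (init x s.unpair.1)))).take
        out.length = out then
      Denumerable.ofNat (List ℕ) (M (Encodable.encode (init x s.unpair.1)))
    else out
  else out

lemma take_init (x : ℕ → ℕ) {m n : ℕ} (h : m ≤ n) : (init x n).take m = init x m := by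
  unfold init
  rw [← List.map_take, List.take_range, min_eq_left h]

lemma stp_init (M x : ℕ → ℕ) (a b : ℕ) (out : List ℕ) {s : ℕ} (h1 : s < a) (h2 : s < b) :
    stp (init M a) (init x b) out s = stpI M x out s := by
  unfold stp stpI
  rw [take_init x ((Nat.unpair_left_le s).trans h2.le)]
  by_cases hs : Encodable.encode (init x s.unpair.1) < s
  · rw [if_pos hs, if_pos hs, init_getD _ _ _ _ (hs.trans h1)]
  · rw [if_neg hs, if_neg hs]

/-- The output after `L` steps. -/
def runI (M x : ℕ → ℕ) (L : ℕ) : List ℕ := (List.range L).foldl (stpI M x) []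

lemma runI_succ (M x : ℕ → ℕ) (L : ℕ) : runI M x (L + 1) = stpI M x (runI M x L) L := by
  unfold runI
  rw [List.range_succ, List.foldl_append]
  rfl

lemma app2_init (M x : ℕ → ℕ) (a b : ℕ) : app2 (init M a) (init x b) = runI M x (min a b) := by
  unfold app2 runI
  simp only [length_init]
  have : ∀ (l : List ℕ), (∀ s ∈ l, s < a ∧ s < b) → ∀ out,
      l.foldl (stp (init M a) (init x b)) out = l.foldl (stpI M x) out := by
    intro l
    induction l with
    | nil => intro _ out; rfl
    | cons c l ih =>
      intro hl out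
      simp only [List.foldl_cons]
      rw [stp_init M x a b out (hl c (by simp)).1 (hl c (by simp)).2]
      exact ih (fun s hs => hl s (by simp [hs])) _
  exact this _ (fun s hs => by have := List.mem_range.1 hs; omega) _

lemma tb_apply (φ : List ℕ → List ℕ) (τ : List ℕ) :
    Denumerable.ofNat (List ℕ) (tb φ (Encodable.encode τ)) = φ τ := by
  simp [tb]

lemma runI_cases {φ : List ℕ → List ℕ} (x : ℕ → ℕ) (L : ℕ) :
    runI (tb φ) x L = [] ∨ ∃ m, runI (tb φ) x L = φ (init x m) := by
  induction L with
  | zero => left; rfl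
  | succ L ih =>
    rw [runI_succ]
    unfold stpI
    split_ifs with h1 h2
    · right; exact ⟨_, tb_apply _ _⟩
    · exact ih
    · exact ih

lemma isMachine_init_le {φ : List ℕ → List ℕ} (hφ : IsMachine φ) (x : ℕ → ℕ) (m n : ℕ) :
    φ (init x m) <+: φ (init x n) ∨ φ (init x n) <+: φ (init x m) := by
  rcases le_total m n with h | h
  · exact Or.inl (hφ.mono _ _ (init_prefix_iff_le h))
  · exact Or.inr (hφ.mono _ _ (init_prefix_iff_le h))

lemma length_runI {φ : List ℕ → List ℕ} (hφ : IsMachine φ) (x : ℕ → ℕ) (m : ℕ) :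
    ∃ L, (φ (init x m)).length ≤ (runI (tb φ) x L).length := by
  refine ⟨Nat.pair m (Encodable.encode (init x m) + 1) + 1, ?_⟩
  set s := Nat.pair m (Encodable.encode (init x m) + 1) with hs
  have h1 : s.unpair.1 = m := by rw [hs, Nat.unpair_pair]
  have h2 : Encodable.encode (init x m) < s := by
    have := Nat.right_le_pair m (Encodable.encode (init x m) + 1)
    omega
  rw [runI_succ]
  unfold stpI
  rw [h1, if_pos h2, tb_apply]
  split_ifs with h3
  · exact le_rfl
  · rcases runI_cases (φ := φ) x s with h | ⟨k, h⟩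
    · exact absurd (by rw [h]; simp) h3
    · rw [h] at h3 ⊢
      rcases isMachine_init_le hφ x k m with h4 | h4
      · exact absurd (List.prefix_iff_eq_take.1 h4).symm h3
      · exact h4.length_le

lemma maps_app2 {φ : List ℕ → List ℕ} (hφ : IsMachine φ) {x y : ℕ → ℕ} (h : Maps φ x y) :
    (∀ L, runI (tb φ) x L = init y (runI (tb φ) x L).length) ∧
      ∀ n, ∃ L, n ≤ (runI (tb φ) x L).length := by
  refine ⟨fun L => ?_, fun n => ?_⟩
  · rcases runI_cases (φ := φ) x L with h1 | ⟨k, h1⟩
    · rw [h1]; rfl
    · rw [h1]; exact h.1 k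
  · obtain ⟨m, hm⟩ := h.2 n
    obtain ⟨L, hL⟩ := length_runI hφ x m
    exact ⟨L, hm.trans hL⟩

lemma runI_mono (M x : ℕ → ℕ) {a b : ℕ} (h : a ≤ b) : runI M x a <+: runI M x b := by
  rw [show runI M x a = app2 (init M a) (init x a) by rw [app2_init, min_self],
    show runI M x b = app2 (init M b) (init x b) by rw [app2_init, min_self]]
  exact app2_mono (init_prefix_iff_le h) (init_prefix_iff_le h)

/-- The word function applying the table in the output of `α` to the output of `β`. -/
lemma isMachine_ap {α β : List ℕ → List ℕ} (hα : IsMachine α) (hβ : IsMachine β) :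
    IsMachine (fun σ => app2 (α σ) (β σ)) :=
  ⟨primrec_app2.to_comp.comp hα.comp hβ.comp, fun a b h => app2_mono (hα.mono a b h)
    (hβ.mono a b h)⟩

lemma maps_ap {φ : List ℕ → List ℕ} (hφ : IsMachine φ) {α β : List ℕ → List ℕ}
    (hα : IsMachine α) (hβ : IsMachine β) {u x y : ℕ → ℕ} (h1 : Maps α u (tb φ))
    (h2 : Maps β u x) (h : Maps φ x y) : Maps (fun σ => app2 (α σ) (β σ)) u y := by
  obtain ⟨r1, r2⟩ := maps_app2 hφ h
  have key : ∀ m, app2 (α (init u m)) (β (init u m)) = runI (tb φ) x
      (min (α (init u m)).length (β (init u m)).length) := by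
    intro m
    conv_lhs => rw [h1.1 m, h2.1 m]
    exact app2_init _ _ _ _
  refine ⟨fun m => ?_, fun n => ?_⟩
  · show app2 (α (init u m)) (β (init u m)) = init y (app2 (α (init u m)) (β (init u m))).length
    rw [key m]
    exact r1 _
  · obtain ⟨L, hL⟩ := r2 n
    obtain ⟨m1, hm1⟩ := h1.2 L
    obtain ⟨m2, hm2⟩ := h2.2 L
    refine ⟨max m1 m2, ?_⟩
    show n ≤ (app2 (α (init u (max m1 m2))) (β (init u (max m1 m2)))).length
    rw [key]
    refine hL.trans (runI_mono _ _ ?_).length_le
    have e1 := (hα.mono _ _ (init_prefix_iff_le (x := u) (le_max_left m1 m2))).length_le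
    have e2 := (hβ.mono _ _ (init_prefix_iff_le (x := u) (le_max_right m1 m2))).length_le
    omega

end Pool.Agent.X225.Tj
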