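import Pool.Agent.X225.Tj.Mach

/-! Totalization, meets and the totalizing jump. -/

namespace Pool.Agent.X225.Tj

open Pool.Agent.H190R3.Wei

/-- The totalization of a problem: outside the domain every point is a solution. -/
def T (g : Problem) : Problem where
  sol p := {q | (g.sol p).Nonempty → q ∈ g.sol p}

/-- The meet of two problems: an instance of both is given, and one of them has to be solved. -/
def meet (f g : Problem) : Problem where
  sol p := {s | ∃ x z, p = pair x z ∧ (f.sol x).Nonempty ∧ (g.sol z).Nonempty ∧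
    ((∃ y ∈ f.sol x, s = tag 0 y) ∨ (∃ y ∈ g.sol z, s = tag 1 y))}

/-- `h` is a totalizing jump of `f`: its degree is the largest of the degrees of `T g`, where `g`
is Weihrauch equivalent to `f`. -/
def IsTJ (f h : Problem) : Prop :=
  (∃ g, (g ≤ f ∧ f ≤ g) ∧ h ≤ T g ∧ T g ≤ h) ∧ ∀ g, g ≤ f → f ≤ g → T g ≤ h

lemma T_nonempty (g : Problem) (p : ℕ → ℕ) : ((T g).sol p).Nonempty := by
  by_cases h : (g.sol p).Nonempty
  · obtain ⟨q, hq⟩ := h
    exact ⟨q, fun _ => hq⟩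
  · exact ⟨p, fun h' => absurd h' h⟩

lemma mem_T {g : Problem} {p q : ℕ → ℕ} (h : q ∈ (T g).sol p) (hp : (g.sol p).Nonempty) :
    q ∈ g.sol p := h hp

lemma meet_nonempty {f g : Problem} {p : ℕ → ℕ} (h : ((meet f g).sol p).Nonempty) :
    ∃ x z, p = pair x z ∧ (f.sol x).Nonempty ∧ (g.sol z).Nonempty := by
  obtain ⟨s, x, z, h1, h2, h3, -⟩ := h
  exact ⟨x, z, h1, h2, h3⟩

lemma mem_meet {f g : Problem} {x z s : ℕ → ℕ} (h : s ∈ (meet f g).sol (pair x z)) :
    (∃ y ∈ f.sol x, s = tag 0 y) ∨ (∃ y ∈ g.sol z, s = tag 1 y) := by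
  obtain ⟨x', z', h1, -, -, h4⟩ := h
  obtain ⟨rfl, rfl⟩ := pair_inj h1
  exact h4

lemma tag0_mem_meet {f g : Problem} {x z y : ℕ → ℕ} (hy : y ∈ f.sol x)
    (hz : (g.sol z).Nonempty) : tag 0 y ∈ (meet f g).sol (pair x z) :=
  ⟨x, z, rfl, ⟨y, hy⟩, hz, Or.inl ⟨y, hy, rfl⟩⟩

lemma tag1_mem_meet {f g : Problem} {x z y : ℕ → ℕ} (hx : (f.sol x).Nonempty)
    (hy : y ∈ g.sol z) : tag 1 y ∈ (meet f g).sol (pair x z) :=
  ⟨x, z, rfl, hx, ⟨y, hy⟩, Or.inr ⟨y, hy, rfl⟩⟩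

lemma meet_le_left (f g : Problem) : meet f g ≤ f := by
  refine ⟨ev, fun σ => 0 :: od σ, isMachine_ev, isMachine_cons 0 isMachine_od, ?_⟩
  intro p hp
  obtain ⟨x, z, rfl, hx, hz⟩ := meet_nonempty hp
  exact ⟨x, maps_ev x z, hx, fun y hy => ⟨tag 0 y, tag0_mem_meet hy hz,
    maps_cons 0 (maps_od _ _)⟩⟩

lemma meet_le_right (f g : Problem) : meet f g ≤ g := by
  refine ⟨od, fun σ => 1 :: od σ, isMachine_od, isMachine_cons 1 isMachine_od, ?_⟩
  intro p hp
  obtain ⟨x, z, rfl, hx, hz⟩ := meet_nonempty hp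
  exact ⟨z, maps_od x z, hz, fun y hy => ⟨tag 1 y, tag1_mem_meet hx hy,
    maps_cons 1 (maps_od _ _)⟩⟩

lemma le_meet {k f g : Problem} (h1 : k ≤ f) (h2 : k ≤ g) : k ≤ meet f g := by
  obtain ⟨φ1, ψ1, hφ1, hψ1, r1⟩ := h1
  obtain ⟨φ2, ψ2, hφ2, hψ2, r2⟩ := h2
  have htl : IsMachine (fun σ => pr (ev σ) (tl od σ)) := isMachine_ev.pr (isMachine_tl isMachine_od)
  have m1 : IsMachine (fun σ => ψ1 (pr (ev σ) (tl od σ))) := hψ1.comp' htl
  have m2 : IsMachine (fun σ => ψ2 (pr (ev σ) (tl od σ))) := hψ2.comp' htl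
  have m3 := isMachine₂_ite 0 (isMachine₂_const m1) (isMachine₂_const m2)
  refine ⟨fun σ => pr (φ1 σ) (φ2 σ), _, hφ1.pr hφ2, isMachine_bnd isMachine_od m3, ?_⟩
  intro p hp
  obtain ⟨q1, hq1, hf, r1⟩ := r1 p hp
  obtain ⟨q2, hq2, hg, r2⟩ := r2 p hp
  refine ⟨pair q1 q2, Maps.pr hφ1 hφ2 hq1 hq2, ?_, fun s hs => ?_⟩
  · obtain ⟨y, hy⟩ := hf
    exact ⟨_, tag0_mem_meet hy hg⟩
  · have hp' : ∀ (c : ℕ) (y : ℕ → ℕ), Maps (fun σ => pr (ev σ) (tl od σ)) (pair p (tag c y))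
        (pair p y) := fun c y => Maps.pr isMachine_ev (isMachine_tl isMachine_od) (maps_ev _ _)
          (maps_tl (maps_od _ _))
    rcases mem_meet hs with ⟨y, hy, rfl⟩ | ⟨y, hy, rfl⟩
    · obtain ⟨w, hw, hm⟩ := r1 y hy
      refine ⟨w, hw, maps_bnd isMachine_od m3 (maps_od _ _) ?_⟩
      simp only [tag_zero', if_true]
      exact Maps.comp hψ1 (hp' _ _) hm
    · obtain ⟨w, hw, hm⟩ := r2 y hy
      refine ⟨w, hw, maps_bnd isMachine_od m3 (maps_od _ _) ?_⟩
      simp only [tag_zero', one_ne_zero, if_false]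
      exact Maps.comp hψ2 (hp' _ _) hm

lemma meet_mono {f g f' g' : Problem} (h1 : f ≤ f') (h2 : g ≤ g') : meet f g ≤ meet f' g' :=
  le_meet ((meet_le_left f g).trans h1) ((meet_le_right f g).trans h2)

/-- The universal problem equivalent to `f`: an instance consists of two tables and a point `p`;
the first table turns `p` into an instance of `f`, the second one turns its solutions into
solutions. -/
def jump (f : Problem) : Problem where
  sol P := {s | ∃ M N p q, P = pair (pair M N) p ∧ Maps app (pair M p) q ∧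
    (∀ x ∈ f.sol q, ∃ y, Maps app (pair N (pair p x)) y) ∧
    ∃ x ∈ f.sol q, Maps app (pair N (pair p x)) s}

lemma app_eq : app = fun σ => app2 (ev σ) (od σ) := rfl

lemma maps_app {φ : List ℕ → List ℕ} (hφ : IsMachine φ) {x y : ℕ → ℕ} (h : Maps φ x y) :
    Maps app (pair (tb φ) x) y :=
  maps_ap hφ isMachine_ev isMachine_od (maps_ev _ _) (maps_od _ _) h

lemma jump_le (f : Problem) : jump f ≤ f := by
  have e1 : IsMachine (fun σ => ev (ev σ)) := isMachine_ev.comp' isMachine_ev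
  have e2 : IsMachine (fun σ => pr (ev (ev σ)) (od σ)) := e1.pr isMachine_od
  have e3 : IsMachine (fun σ => app (pr (ev (ev σ)) (od σ))) := isMachine_app.comp' e2
  -- backwards: `pair (pair (pair M N) p) x`
  have b1 : IsMachine (fun σ => od (ev (ev σ))) := isMachine_od.comp' e1
  have b2 : IsMachine (fun σ => od (ev σ)) := isMachine_od.comp' isMachine_ev
  have b3 : IsMachine (fun σ => pr (od (ev σ)) (od σ)) := b2.pr isMachine_od
  have b4 : IsMachine (fun σ => pr (od (ev (ev σ))) (pr (od (ev σ)) (od σ))) := b1.pr b3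
  refine ⟨_, _, e3, isMachine_app.comp' b4, ?_⟩
  intro P hP
  obtain ⟨s, M, N, p, q, rfl, h1, h2, x, hx, hs⟩ := hP
  refine ⟨q, ?_, ⟨x, hx⟩, fun y hy => ?_⟩
  · refine Maps.comp isMachine_app ?_ h1
    exact Maps.pr e1 isMachine_od (Maps.comp isMachine_ev (maps_ev _ _) (maps_ev _ _))
      (maps_od _ _)
  · obtain ⟨w, hw⟩ := h2 y hy
    refine ⟨w, ⟨M, N, p, q, rfl, h1, h2, y, hy, hw⟩, ?_⟩
    refine Maps.comp isMachine_app ?_ hw
    refine Maps.pr b1 b3 ?_ ?_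
    · exact Maps.comp isMachine_od (Maps.comp isMachine_ev (maps_ev _ _) (maps_ev _ _))
        (maps_od _ _)
    · exact Maps.pr b2 isMachine_od (Maps.comp isMachine_od (maps_ev _ _) (maps_od _ _))
        (maps_od _ _)

lemma T_le_T_jump {g f : Problem} (h : g ≤ f) : T g ≤ T (jump f) := by
  obtain ⟨φ, ψ, hφ, hψ, r⟩ := h
  have c1 := isMachine_const (computable_tb hφ)
  have c2 := isMachine_const (computable_tb hψ)
  refine ⟨_, _, (c1.pr c2).pr isMachine_id, isMachine_od, ?_⟩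
  intro p _
  refine ⟨pair (pair (tb φ) (tb ψ)) p, ?_, T_nonempty _ _, fun s hs => ⟨s, ?_, maps_od _ _⟩⟩
  · exact Maps.pr (c1.pr c2) isMachine_id (Maps.pr c1 c2 (maps_const _ _) (maps_const _ _))
      (maps_id p)
  · intro hp
    obtain ⟨q, hq, hfq, r⟩ := r p hp
    have h2 : ∀ x ∈ f.sol q, ∃ y, Maps app (pair (tb ψ) (pair p x)) y := by
      intro x hx
      obtain ⟨w, -, hw⟩ := r x hx
      exact ⟨w, maps_app hψ hw⟩
    have hne : ((jump f).sol (pair (pair (tb φ) (tb ψ)) p)).Nonempty := by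
      obtain ⟨x, hx⟩ := hfq
      obtain ⟨w, hw⟩ := h2 x hx
      exact ⟨w, _, _, _, _, rfl, maps_app hφ hq, h2, x, hx, hw⟩
    obtain ⟨M, N, p', q', he, h3, -, x, hx, hw⟩ := hs hne
    obtain ⟨h5, rfl⟩ := pair_inj he
    obtain ⟨rfl, rfl⟩ := pair_inj h5
    obtain rfl := Maps.unique h3 (maps_app hφ hq)
    obtain ⟨w, hw1, hw2⟩ := r x hx
    obtain rfl := Maps.unique hw (maps_app hψ hw2)
    exact hw1

lemma le_jump (f : Problem) : f ≤ jump f := by
  have c1 := isMachine_const (computable_tb isMachine_id)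
  have c2 := isMachine_const (computable_tb isMachine_od)
  refine ⟨_, _, (c1.pr c2).pr isMachine_id, isMachine_od, ?_⟩
  intro p hp
  have h1 : Maps app (pair (tb fun σ => σ) p) p := maps_app isMachine_id (maps_id p)
  have h2 : ∀ x, Maps app (pair (tb od) (pair p x)) x := fun x => maps_app isMachine_od (maps_od _ _)
  refine ⟨pair (pair (tb fun σ => σ) (tb od)) p, ?_, ?_, fun s hs => ⟨s, ?_, maps_od _ _⟩⟩
  · exact Maps.pr (c1.pr c2) isMachine_id (Maps.pr c1 c2 (maps_const _ _) (maps_const _ _))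
      (maps_id p)
  · obtain ⟨x, hx⟩ := hp
    exact ⟨x, _, _, _, _, rfl, h1, fun x _ => ⟨x, h2 x⟩, x, hx, h2 x⟩
  · obtain ⟨M, N, p', q', he, h3, -, x, hx, hw⟩ := hs
    obtain ⟨h5, rfl⟩ := pair_inj he
    obtain ⟨rfl, rfl⟩ := pair_inj h5
    obtain rfl := Maps.unique h3 h1
    obtain rfl := Maps.unique hw (h2 x)
    exact hx

/-- Every problem has a totalizing jump. -/
theorem isTJ_jump (f : Problem) : IsTJ f (T (jump f)) :=
  ⟨⟨jump f, ⟨jump_le f, le_jump f⟩, le_refl _, le_refl _⟩, fun _ h _ => T_le_T_jump h⟩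

/-- The known half. -/
lemma tj_mono {f g hf hg : Problem} (h1 : IsTJ f hf) (h2 : IsTJ g hg) (h : f ≤ g) : hf ≤ hg := by
  obtain ⟨⟨k, ⟨hk, -⟩, hk2, -⟩, -⟩ := h1
  exact hk2.trans ((T_le_T_jump (hk.trans h)).trans (h2.2 _ (jump_le g) (le_jump g)))

end Pool.Agent.X225.Tj
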