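import Pool.Agent.X225.Tj.Defs

/-! The diagonal problem. -/

namespace Pool.Agent.X225.Tj

open Pool.Agent.H190R3.Wei

/-- The header of an instance `pair _ u`: the sequence `u` without its leading zeros. -/
def HM (σ : List ℕ) : List ℕ := drop0 (od σ)

lemma isMachine_HM : IsMachine HM := isMachine_drop0.comp' isMachine_od

/-- One of the two halves. -/
def prw (τ : ℕ) (σ : List ℕ) : List ℕ := if τ = 0 then ev σ else od σ

lemma isMachine_prw (τ : ℕ) : IsMachine (prw τ) := by
  by_cases h : τ = 0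
  · have : prw τ = ev := by funext σ; simp [prw, h]
    rw [this]; exact isMachine_ev
  · have : prw τ = od := by funext σ; simp [prw, h]
    rw [this]; exact isMachine_od

lemma maps_prw_zero (x y : ℕ → ℕ) : Maps (prw 0) (pair x y) x := by
  have : prw 0 = ev := by funext σ; simp [prw]
  rw [this]; exact maps_ev x y

lemma maps_prw_one (x y : ℕ → ℕ) : Maps (prw 1) (pair x y) y := by
  have : prw 1 = od := by funext σ; simp [prw]
  rw [this]; exact maps_od x y

/-- Apply the first table contained in the instance to the whole instance and take a half. -/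
def GM (τ : ℕ) (σ : List ℕ) : List ℕ := prw τ (app2 (ev (ev σ)) σ)

lemma isMachine_GM (τ : ℕ) : IsMachine (GM τ) :=
  (isMachine_prw τ).comp' (isMachine_ap (isMachine_ev.comp' isMachine_ev) isMachine_id)

/-- Apply the second table contained in the instance `P` to the pair of `P` and `τ x`. -/
def BM (τ : ℕ) (σ : List ℕ) : List ℕ := app2 (od (ev (ev σ))) (pr (ev σ) (τ :: od σ))

lemma isMachine_BM (τ : ℕ) : IsMachine (BM τ) :=
  isMachine_ap (isMachine_od.comp' (isMachine_ev.comp' isMachine_ev))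
    (isMachine_ev.pr (isMachine_cons τ isMachine_od))

/-- The counter attached to an output. -/
def cnt (τ : ℕ) (b : ℕ → ℕ) : ℕ := if b 0 = τ then b 1 + 1 else 0

/-- The diagonal problem. -/
def D (f : Problem) (τ : ℕ) : Problem where
  sol P := {s | ∃ t v z, Maps HM P (tag (t + 1) (tag v z)) ∧
    ((t = τ ∧ ∃ x ∈ f.sol z, s = tag (v + 1) x) ∨
      (t ≠ τ ∧ ∃ q, Maps (GM τ) P q ∧ (∀ x ∈ f.sol q, ∃ b, Maps (BM τ) (pair P x) b) ∧
        ∃ x ∈ f.sol q, ∃ b, Maps (BM τ) (pair P x) b ∧ s = tag (cnt τ b) x))}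

/-- Output the counter of `α` and then the output of `γ`. -/
def cm (τ : ℕ) (α γ : List ℕ → List ℕ) : List ℕ → List ℕ :=
  bnd α (fun b σ => if b = τ then bnd (tl α) (fun c σ => (c + 1) :: γ σ) σ else 0 :: γ σ)

lemma isMachine₂_cm {α γ : List ℕ → List ℕ} (hα : IsMachine α) (hγ : IsMachine γ) (τ : ℕ) :
    IsMachine₂ (fun b σ => if b = τ then bnd (tl α) (fun c σ => (c + 1) :: γ σ) σ
      else 0 :: γ σ) :=
  isMachine₂_ite τ (isMachine₂_const (isMachine_bnd (isMachine_tl hα)
    (isMachine₂_cons Computable.succ hγ))) (isMachine₂_const (isMachine_cons 0 hγ))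

lemma isMachine_cm {α γ : List ℕ → List ℕ} (hα : IsMachine α) (hγ : IsMachine γ) (τ : ℕ) :
    IsMachine (cm τ α γ) :=
  isMachine_bnd hα (isMachine₂_cm hα hγ τ)

lemma maps_cm {α γ : List ℕ → List ℕ} (hα : IsMachine α) (hγ : IsMachine γ) (τ : ℕ)
    {u b x : ℕ → ℕ} (h1 : Maps α u b) (h2 : Maps γ u x) :
    Maps (cm τ α γ) u (tag (cnt τ b) x) := by
  refine maps_bnd hα (isMachine₂_cm hα hγ τ) h1 ?_
  by_cases h : b 0 = τ
  · simp only [if_pos h, cnt]
    have h3 : Maps (tl α) u (fun n => b (n + 1)) := by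
      have := eq_tag b
      rw [this] at h1
      exact maps_tl h1
    refine maps_bnd (isMachine_tl hα) (isMachine₂_cons Computable.succ hγ) h3 ?_
    exact maps_cons _ h2
  · simp only [if_neg h, cnt]
    exact maps_cons _ h2

lemma D_le (f : Problem) (τ : ℕ) : D f τ ≤ f := by
  have f1 := isMachine₂_ite (τ + 1) (isMachine₂_const (isMachine_tl (isMachine_tl isMachine_HM)))
    (isMachine₂_const (isMachine_GM τ))
  have h1 : IsMachine (fun σ => HM (ev σ)) := isMachine_HM.comp' isMachine_ev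
  have h2 : IsMachine (bnd (tl fun σ => HM (ev σ)) (fun v σ => (v + 1) :: od σ)) :=
    isMachine_bnd (isMachine_tl h1) (isMachine₂_cons Computable.succ isMachine_od)
  have h3 : IsMachine (cm τ (BM τ) od) := isMachine_cm (isMachine_BM τ) isMachine_od τ
  have h4 := isMachine₂_ite (τ + 1) (isMachine₂_const h2) (isMachine₂_const h3)
  refine ⟨_, _, isMachine_bnd isMachine_HM f1, isMachine_bnd h1 h4, ?_⟩
  intro P hP
  obtain ⟨s, t, v, z, hH, hs⟩ := hP
  have hH' : ∀ x, Maps (fun σ => HM (ev σ)) (pair P x) (tag (t + 1) (tag v z)) := fun x =>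
    Maps.comp isMachine_HM (maps_ev _ _) hH
  rcases hs with ⟨rfl, x, hx, -⟩ | ⟨hne, q, hq, hall, x, hx, b, hb, -⟩
  · refine ⟨z, ?_, ⟨x, hx⟩, fun y hy => ⟨tag (v + 1) y, ⟨t, v, z, hH, Or.inl ⟨rfl, y, hy, rfl⟩⟩, ?_⟩⟩
    · refine maps_bnd isMachine_HM f1 hH ?_
      simp only [tag_zero', if_true]
      exact maps_tl (maps_tl hH)
    · refine maps_bnd h1 h4 (hH' _) ?_
      simp only [tag_zero', if_true]
      refine maps_bnd (isMachine_tl h1) (isMachine₂_cons Computable.succ isMachine_od)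
        (maps_tl (hH' _)) ?_
      exact maps_cons _ (maps_od _ _)
  · have hne' : ¬ (t + 1 = τ + 1) := fun h => hne (by omega)
    refine ⟨q, ?_, ⟨x, hx⟩, fun y hy => ?_⟩
    · refine maps_bnd isMachine_HM f1 hH ?_
      simp only [tag_zero', if_neg hne']
      exact hq
    · obtain ⟨b', hb'⟩ := hall y hy
      refine ⟨tag (cnt τ b') y, ⟨t, v, z, hH, Or.inr ⟨hne, q, hq, hall, y, hy, b', hb', rfl⟩⟩, ?_⟩
      refine maps_bnd h1 h4 (hH' _) ?_
      simp only [tag_zero', if_neg hne']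
      exact maps_cm (isMachine_BM τ) isMachine_od τ hb' (maps_od _ _)

lemma D_simple {f : Problem} {τ v : ℕ} {P z : ℕ → ℕ} (hP : Maps HM P (tag (τ + 1) (tag v z)))
    (hz : (f.sol z).Nonempty) : ((D f τ).sol P).Nonempty ∧
      ∀ s ∈ (D f τ).sol P, ∃ x ∈ f.sol z, s = tag (v + 1) x := by
  refine ⟨?_, fun s hs => ?_⟩
  · obtain ⟨x, hx⟩ := hz
    exact ⟨tag (v + 1) x, τ, v, z, hP, Or.inl ⟨rfl, x, hx, rfl⟩⟩
  · obtain ⟨t', v', z', hH, hs⟩ := hs
    have := Maps.unique hP hH
    obtain ⟨h1, h2⟩ := tag_inj this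
    obtain ⟨rfl, rfl⟩ := tag_inj h2
    obtain rfl : t' = τ := by omega
    rcases hs with ⟨-, x, hx, rfl⟩ | ⟨hne, -⟩
    · exact ⟨x, hx, rfl⟩
    · exact absurd rfl hne

lemma D_self {f : Problem} {τ t v : ℕ} (ht : t ≠ τ) {P z q : ℕ → ℕ}
    (hP : Maps HM P (tag (t + 1) (tag v z))) (hq : Maps (GM τ) P q) (hf : (f.sol q).Nonempty)
    (hall : ∀ x ∈ f.sol q, ∃ b, Maps (BM τ) (pair P x) b) : ((D f τ).sol P).Nonempty ∧
      ∀ s ∈ (D f τ).sol P, ∃ x ∈ f.sol q, ∃ b, Maps (BM τ) (pair P x) b ∧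
        s = tag (cnt τ b) x := by
  refine ⟨?_, fun s hs => ?_⟩
  · obtain ⟨x, hx⟩ := hf
    obtain ⟨b, hb⟩ := hall x hx
    exact ⟨tag (cnt τ b) x, t, v, z, hP, Or.inr ⟨ht, q, hq, hall, x, hx, b, hb, rfl⟩⟩
  · obtain ⟨t', v', z', hH, hs⟩ := hs
    have := Maps.unique hP hH
    obtain ⟨h1, h2⟩ := tag_inj this
    obtain rfl : t' = t := by omega
    rcases hs with ⟨h, -⟩ | ⟨-, q', hq', -, x, hx, b, hb, rfl⟩
    · exact absurd h ht
    · obtain rfl := Maps.unique hq hq'
      exact ⟨x, hx, b, hb, rfl⟩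

lemma le_D (f : Problem) (τ : ℕ) : f ≤ D f τ := by
  have c := isMachine_const (Computable.const (σ := ℕ) (α := ℕ) 0)
  have c2 : IsMachine (fun σ : List ℕ => (τ + 1) :: 0 :: σ) :=
    isMachine_cons _ (isMachine_cons _ isMachine_id)
  refine ⟨_, _, c.pr c2, isMachine_tl isMachine_od, ?_⟩
  intro p hp
  have hH : Maps HM (pair (fun _ => 0) (tag (τ + 1) (tag 0 p))) (tag (τ + 1) (tag 0 p)) := by
    refine Maps.comp isMachine_drop0 (maps_od _ _) ?_
    exact maps_drop0 0 (tag (τ + 1) (tag 0 p)) (by rw [tag_zero']; omega)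
  obtain ⟨h1, h2⟩ := D_simple hH hp
  refine ⟨pair (fun _ => 0) (tag (τ + 1) (tag 0 p)), ?_, h1, fun s hs => ?_⟩
  · exact Maps.pr c c2 (maps_const _ _) (maps_cons _ (maps_cons _ (maps_id p)))
  · obtain ⟨x, hx, rfl⟩ := h2 s hs
    exact ⟨x, hx, maps_tl (maps_od _ _)⟩

/-- Put zeros in front of the output. -/
def zc : ℕ → (List ℕ → List ℕ) → (List ℕ → List ℕ)
  | 0, α => α
  | k + 1, α => fun σ => 0 :: zc k α σ

lemma isMachine_zc {α : List ℕ → List ℕ} (hα : IsMachine α) (k : ℕ) : IsMachine (zc k α) := by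
  induction k with
  | zero => exact hα
  | succ k ih => exact isMachine_cons 0 ih

lemma maps_zc {α : List ℕ → List ℕ} {x a : ℕ → ℕ} (h : Maps α x a) (k : ℕ) :
    Maps (zc k α) x (z0 k a) := by
  induction k with
  | zero => exact h
  | succ k ih => exact maps_cons 0 ih

/-- The instance built from two tables, a number of zeros, a tag, a digit and a point. -/
def PP (F B : List ℕ → List ℕ) (k t v : ℕ) (z : ℕ → ℕ) : ℕ → ℕ :=
  pair (pair (tb F) (tb B)) (z0 k (tag (t + 1) (tag v z)))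

lemma maps_HM_PP (F B : List ℕ → List ℕ) (k t v : ℕ) (z : ℕ → ℕ) :
    Maps HM (PP F B k t v z) (tag (t + 1) (tag v z)) :=
  Maps.comp isMachine_drop0 (maps_od _ _) (maps_drop0 k _ (by rw [tag_zero']; omega))

lemma maps_GM_PP {F B : List ℕ → List ℕ} (hF : IsMachine F) {k t v : ℕ} {z q0 q1 : ℕ → ℕ}
    (h : Maps F (PP F B k t v z) (pair q0 q1)) :
    Maps (GM 0) (PP F B k t v z) q0 ∧ Maps (GM 1) (PP F B k t v z) q1 := by
  have : Maps (fun σ => app2 (ev (ev σ)) σ) (PP F B k t v z) (pair q0 q1) :=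
    maps_ap hF (isMachine_ev.comp' isMachine_ev) isMachine_id
      (Maps.comp isMachine_ev (maps_ev _ _) (maps_ev _ _)) (maps_id _) h
  exact ⟨Maps.comp (isMachine_prw 0) this (maps_prw_zero _ _),
    Maps.comp (isMachine_prw 1) this (maps_prw_one _ _)⟩

lemma maps_BM_PP {F B : List ℕ → List ℕ} (hB : IsMachine B) {k t v τ : ℕ} {z x b : ℕ → ℕ}
    (h : Maps B (pair (PP F B k t v z) (tag τ x)) b) :
    Maps (BM τ) (pair (PP F B k t v z) x) b := by
  refine maps_ap hB (isMachine_od.comp' (isMachine_ev.comp' isMachine_ev))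
    (isMachine_ev.pr (isMachine_cons τ isMachine_od)) ?_ ?_ h
  · exact Maps.comp isMachine_od (Maps.comp isMachine_ev (maps_ev _ _) (maps_ev _ _)) (maps_od _ _)
  · exact Maps.pr isMachine_ev (isMachine_cons τ isMachine_od) (maps_ev _ _)
      (maps_cons _ (maps_od _ _))

/-- The machine producing `PP` from its last entry. -/
def pm (F B : List ℕ → List ℕ) (k t v : ℕ) (σ : List ℕ) : List ℕ :=
  pr (pr (init (tb F) σ.length) (init (tb B) σ.length)) (zc k (fun σ => (t + 1) :: v :: σ) σ)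

lemma isMachine_pm {F B : List ℕ → List ℕ} (hF : IsMachine F) (hB : IsMachine B) (k t v : ℕ) :
    IsMachine (pm F B k t v) :=
  ((isMachine_const (computable_tb hF)).pr (isMachine_const (computable_tb hB))).pr
    (isMachine_zc (isMachine_cons _ (isMachine_cons _ isMachine_id)) k)

lemma maps_pm {F B : List ℕ → List ℕ} (hF : IsMachine F) (hB : IsMachine B) (k t v : ℕ)
    (z : ℕ → ℕ) : Maps (pm F B k t v) z (PP F B k t v z) :=
  Maps.pr ((isMachine_const (computable_tb hF)).pr (isMachine_const (computable_tb hB)))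
    (isMachine_zc (isMachine_cons _ (isMachine_cons _ isMachine_id)) k)
    (Maps.pr (isMachine_const (computable_tb hF)) (isMachine_const (computable_tb hB))
      (maps_const (tb F) z) (maps_const (tb B) z))
    (maps_zc (maps_cons (t + 1) (maps_cons v (maps_id z))) k)

/-- The combinatorial heart: following the counters downwards solves `f` with one use of `g`. -/
lemma core {f g : Problem} {t t' v k : ℕ} (htt : t ≠ t') {F B : List ℕ → List ℕ}
    (hF : IsMachine F) (hB : IsMachine B)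
    (H : ∀ z, (f.sol z).Nonempty → ∃ q, Maps (fun σ => prw t' (F σ)) (PP F B k t v z) q ∧
      (g.sol q).Nonempty ∧ ∀ y ∈ g.sol q, ∃ b, Maps B (pair (PP F B k t v z) (tag t' y)) b ∧
        ((∃ x ∈ f.sol z, b = tag t (tag (v + 1) x)) ∨
          ∃ y' ∈ g.sol q, ∃ b', Maps B (pair (PP F B k t v z) (tag t' y')) b' ∧
            b = tag t' (tag (cnt t' b') y'))) : f ≤ g := by
  have cP := isMachine_pm hF hB k t v
  have mP := maps_pm hF hB k t v
  have hβ : IsMachine (fun σ => pm F B k t v (ev σ)) := cP.comp' isMachine_ev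
  have hbm := hB.comp' (hβ.pr (isMachine_cons t' isMachine_od))
  refine ⟨_, _, ((isMachine_prw t').comp' hF).comp' cP,
    isMachine_bnd (isMachine_cm hbm isMachine_od t') (isMachine₂_itr t' hB hβ isMachine_od), ?_⟩
  intro z hz
  obtain ⟨q, hq, hg, hy⟩ := H z hz
  refine ⟨q, Maps.comp ((isMachine_prw t').comp' hF) (mP z) hq, hg, fun y0 hy0 => ?_⟩
  have mβ := Maps.comp cP (maps_ev z y0) (mP z)
  have claim : ∀ n, ∀ α : List ℕ → List ℕ, IsMachine α → ∀ y ∈ g.sol q, Maps α (pair z y0) y →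
      ∀ b, Maps B (pair (PP F B k t v z) (tag t' y)) b → cnt t' b = n →
        ∃ x ∈ f.sol z, Maps (itr B t' (fun σ => pm F B k t v (ev σ)) α n) (pair z y0) x := by
    intro n
    induction n with
    | zero =>
      intro α hα y hyq hαy b hb hc
      have hm := Maps.comp hB (Maps.pr hβ (isMachine_cons t' hα) mβ (maps_cons t' hαy)) hb
      obtain ⟨b1, hb1, h⟩ := hy y hyq
      obtain rfl := Maps.unique hb hb1
      rcases h with ⟨x, hx, rfl⟩ | ⟨y', hy', b', hb', rfl⟩
      · refine ⟨x, hx, ?_⟩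
        rw [itr_zero]
        exact maps_tl (maps_tl hm)
      · exfalso
        simp [cnt, tag_zero'] at hc
    | succ n ih =>
      intro α hα y hyq hαy b hb hc
      have hmm := hB.comp' (hβ.pr (isMachine_cons t' hα))
      have hm := Maps.comp hB (Maps.pr hβ (isMachine_cons t' hα) mβ (maps_cons t' hαy)) hb
      obtain ⟨b1, hb1, h⟩ := hy y hyq
      obtain rfl := Maps.unique hb hb1
      rcases h with ⟨x, hx, rfl⟩ | ⟨y', hy', b', hb', rfl⟩
      · exfalso
        simp [cnt, tag_zero', htt] at hc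
      · have hc' : cnt t' b' = n := by
          have e : tag t' (tag (cnt t' b') y') 1 = cnt t' b' := by
            rw [show (1 : ℕ) = 0 + 1 from rfl, tag_succ', tag_zero']
          rw [cnt, if_pos (tag_zero' _ _), e] at hc
          omega
        rw [itr_succ]
        exact ih _ (isMachine_tl (isMachine_tl hmm)) y' hy' (maps_tl (maps_tl hm)) b' hb' hc'
  obtain ⟨b, hb, -⟩ := hy y0 hy0
  obtain ⟨x, hx, hm⟩ := claim _ od isMachine_od y0 hy0 (maps_od _ _) b hb rfl
  refine ⟨x, hx, ?_⟩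
  have hm0 := Maps.comp hB (Maps.pr hβ (isMachine_cons t' isMachine_od) mβ
    (maps_cons t' (maps_od z y0))) hb
  refine maps_bnd (isMachine_cm hbm isMachine_od t') (isMachine₂_itr t' hB hβ isMachine_od)
    (maps_cm hbm isMachine_od t' hm0 (maps_od _ _)) ?_
  rw [tag_zero']
  exact hm

end Pool.Agent.X225.Tj
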