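import Pool.Agent.X225.Tj.App

/-! More machines: reading a first symbol, dropping leading zeros, iteration. -/

namespace Pool.Agent.X225.Tj

open Pool.Agent.H190R3.Wei

/-- Machines with a numerical parameter. -/
structure IsMachine₂ (β : ℕ → List ℕ → List ℕ) : Prop where
  comp : Computable₂ β
  mono : ∀ c a b, a <+: b → β c a <+: β c b

/-- Read the first symbol of the output of `α` and continue with `β`. -/
def bnd (α : List ℕ → List ℕ) (β : ℕ → List ℕ → List ℕ) (σ : List ℕ) : List ℕ :=
  Option.casesOn (α σ).head? [] (fun c => β c σ)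

lemma bnd_nil {α : List ℕ → List ℕ} {β : ℕ → List ℕ → List ℕ} {σ : List ℕ} (h : α σ = []) :
    bnd α β σ = [] := by
  unfold bnd; rw [h]; rfl

lemma bnd_cons {α : List ℕ → List ℕ} {β : ℕ → List ℕ → List ℕ} {σ : List ℕ} {c : ℕ} {l : List ℕ}
    (h : α σ = c :: l) : bnd α β σ = β c σ := by
  unfold bnd; rw [h]; rfl

lemma isMachine_bnd {α : List ℕ → List ℕ} {β : ℕ → List ℕ → List ℕ} (hα : IsMachine α)
    (hβ : IsMachine₂ β) : IsMachine (bnd α β) := by
  refine ⟨?_, ?_⟩
  · refine Computable.option_casesOn (o := fun σ => (α σ).head?) (f := fun _ => [])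
      (g := fun σ c => β c σ) ?_ (Computable.const []) ?_
    · exact (Primrec.list_head?.to_comp).comp hα.comp
    · exact hβ.comp.comp Computable.snd Computable.fst
  · intro a b h
    have h' := hα.mono a b h
    cases ha : α a with
    | nil => rw [bnd_nil ha]; exact List.nil_prefix
    | cons c l =>
      obtain ⟨t, ht⟩ := h'
      rw [ha] at ht
      rw [bnd_cons ha, bnd_cons (c := c) (l := l ++ t) (by rw [← ht]; rfl)]
      exact hβ.mono c a b h

lemma eq_cons_of_maps {α : List ℕ → List ℕ} {x a : ℕ → ℕ} (h : Maps α x a) {m : ℕ}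
    (hm : α (init x m) ≠ []) : ∃ l, α (init x m) = a 0 :: l := by
  cases hl : (α (init x m)).length with
  | zero => exact absurd (List.eq_nil_of_length_eq_zero hl) hm
  | succ k =>
    have := h.1 m
    rw [hl, init_succ] at this
    exact ⟨_, this⟩

lemma maps_bnd {α : List ℕ → List ℕ} {β : ℕ → List ℕ → List ℕ} (hα : IsMachine α)
    (hβ : IsMachine₂ β) {x a y : ℕ → ℕ} (h1 : Maps α x a) (h2 : Maps (β (a 0)) x y) :
    Maps (bnd α β) x y := by
  refine ⟨fun m => ?_, fun n => ?_⟩
  · by_cases hm : α (init x m) = []
    · rw [bnd_nil hm]; rfl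
    · obtain ⟨l, hl⟩ := eq_cons_of_maps h1 hm
      rw [bnd_cons hl]
      exact h2.1 m
  · obtain ⟨m1, hm1⟩ := h1.2 1
    obtain ⟨m2, hm2⟩ := h2.2 n
    refine ⟨max m1 m2, ?_⟩
    have hne : α (init x (max m1 m2)) ≠ [] := by
      intro h0
      have := (hα.mono _ _ (init_prefix_iff_le (x := x) (le_max_left m1 m2))).length_le
      rw [h0] at this
      simp only [List.length_nil] at this
      omega
    obtain ⟨l, hl⟩ := eq_cons_of_maps h1 hne
    rw [bnd_cons hl]
    exact hm2.trans (hβ.mono _ _ _ (init_prefix_iff_le (x := x) (le_max_right m1 m2))).length_le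

/-- The word function without its first symbol. -/
def tl (α : List ℕ → List ℕ) (σ : List ℕ) : List ℕ := (α σ).tail

lemma isMachine_tl {α : List ℕ → List ℕ} (hα : IsMachine α) : IsMachine (tl α) :=
  ⟨(Primrec.list_tail.to_comp).comp hα.comp, fun a b h => tail_mono (hα.mono a b h)⟩

lemma maps_tl {α : List ℕ → List ℕ} {x a : ℕ → ℕ} {c : ℕ} (h : Maps α x (tag c a)) :
    Maps (tl α) x a := by
  refine ⟨fun m => ?_, fun n => ?_⟩
  · have h1 := h.1 m
    unfold tl
    cases hl : (α (init x m)).length with
    | zero =>
      rw [List.eq_nil_of_length_eq_zero hl]; rfl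
    | succ k =>
      rw [hl, init_tag] at h1
      rw [h1]
      simp
  · obtain ⟨m, hm⟩ := h.2 (n + 1)
    refine ⟨m, ?_⟩
    unfold tl
    simp only [List.length_tail]
    omega

lemma tag_zero' (c : ℕ) (a : ℕ → ℕ) : tag c a 0 = c := by simp [tag]

lemma tag_succ' (c : ℕ) (a : ℕ → ℕ) (n : ℕ) : tag c a (n + 1) = a n := by simp [tag]

lemma tag_inj {c d : ℕ} {a b : ℕ → ℕ} (h : tag c a = tag d b) : c = d ∧ a = b := by
  refine ⟨?_, ?_⟩
  · have := congrFun h 0
    rwa [tag_zero', tag_zero'] at this
  · funext n
    have := congrFun h (n + 1)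
    rwa [tag_succ', tag_succ'] at this

lemma eq_tag (a : ℕ → ℕ) : a = tag (a 0) (fun n => a (n + 1)) := by
  funext n
  cases n with
  | zero => rw [tag_zero']
  | succ n => rw [tag_succ']

/-- The machine with a constant computable output. -/
lemma isMachine_const {M : ℕ → ℕ} (hM : Computable M) : IsMachine (fun σ => init M σ.length) := by
  refine ⟨?_, fun a b h => init_prefix_iff_le h.length_le⟩
  have h1 : Computable (fun n : ℕ => init M n) := by
    have h2 : Computable (fun n : ℕ =>
        (Nat.rec ([] : List ℕ) (fun k acc => acc ++ [M k]) n : List ℕ)) := by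
      refine Computable.nat_rec (f := fun n : ℕ => n) (g := fun _ => ([] : List ℕ))
        (h := fun _ p => p.2 ++ [M p.1]) Computable.id (Computable.const []) ?_
      exact Computable.list_concat.comp (Computable.snd.comp Computable.snd)
        (hM.comp (Computable.fst.comp Computable.snd))
    refine h2.of_eq fun n => ?_
    induction n with
    | zero => rfl
    | succ n ih =>
      show _ ++ [M n] = init M (n + 1)
      rw [ih]
      unfold init
      rw [List.range_succ, List.map_append]
      rfl
  exact h1.comp Computable.list_length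

lemma maps_const (M x : ℕ → ℕ) : Maps (fun σ => init M σ.length) x M :=
  ⟨fun m => by simp, fun n => ⟨n, by simp⟩⟩

lemma computable_tb {φ : List ℕ → List ℕ} (hφ : IsMachine φ) : Computable (tb φ) :=
  Computable.encode.comp (hφ.comp.comp (Computable.ofNat (List ℕ)))

/-- Remove leading zeros. -/
def drop0 (σ : List ℕ) : List ℕ := σ.dropWhile (fun n => n == 0)

lemma isMachine_drop0 : IsMachine drop0 := by
  refine ⟨?_, ?_⟩
  · refine Primrec.to_comp (Primrec.list_dropWhile ?_)
    exact Primrec.beq.comp Primrec.id (Primrec.const 0)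
  · intro a b h
    unfold drop0
    induction a generalizing b with
    | nil => simp
    | cons c a ih =>
      cases b with
      | nil => simp at h
      | cons d b =>
        rw [List.cons_prefix_cons] at h
        obtain ⟨rfl, h⟩ := h
        by_cases hc : c = 0
        · subst hc
          simp only [List.dropWhile_cons, beq_self_eq_true, if_true]
          exact ih b h
        · have : (c == 0) = false := by simpa using hc
          simp only [List.dropWhile_cons, this, Bool.false_eq_true, if_false]
          exact (List.cons_prefix_cons).2 ⟨rfl, h⟩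

/-- Put `k` zeros in front. -/
def z0 : ℕ → (ℕ → ℕ) → (ℕ → ℕ)
  | 0, y => y
  | k + 1, y => tag 0 (z0 k y)

lemma z0_lt (k : ℕ) (y : ℕ → ℕ) : ∀ n, n < k → z0 k y n = 0 := by
  induction k with
  | zero => intro n hn; omega
  | succ k ih =>
    intro n hn
    cases n with
    | zero => rfl
    | succ n =>
      show tag 0 (z0 k y) (n + 1) = 0
      rw [tag_succ']
      exact ih n (by omega)

lemma drop0_init (k : ℕ) (y : ℕ → ℕ) (hy : y 0 ≠ 0) (m : ℕ) :
    drop0 (init (z0 k y) m) = init y (m - k) := by
  induction k generalizing m with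
  | zero =>
    cases m with
    | zero => rfl
    | succ m =>
      show drop0 (init y (m + 1)) = init y (m + 1)
      rw [init_succ]
      unfold drop0
      have : (y 0 == 0) = false := by simpa using hy
      simp only [List.dropWhile_cons, this, Bool.false_eq_true, if_false]
  | succ k ih =>
    cases m with
    | zero => simp [init, drop0]
    | succ m =>
      show drop0 (init (tag 0 (z0 k y)) (m + 1)) = _
      rw [init_tag]
      have : drop0 (0 :: init (z0 k y) m) = drop0 (init (z0 k y) m) := by
        simp [drop0]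
      rw [this, ih m]
      congr 1
      omega

lemma maps_drop0 (k : ℕ) (y : ℕ → ℕ) (hy : y 0 ≠ 0) : Maps drop0 (z0 k y) y := by
  refine ⟨fun m => ?_, fun n => ⟨n + k, ?_⟩⟩
  · rw [drop0_init k y hy m, length_init]
  · rw [drop0_init k y hy, length_init]; omega

/-- A parametrised machine that does not use its parameter. -/
lemma isMachine₂_const {α : List ℕ → List ℕ} (hα : IsMachine α) :
    IsMachine₂ (fun _ σ => α σ) :=
  ⟨hα.comp.comp Computable.snd, fun _ a b h => hα.mono a b h⟩

/-- Case distinction on the parameter. -/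
lemma isMachine₂_ite (t : ℕ) {β γ : ℕ → List ℕ → List ℕ} (hβ : IsMachine₂ β)
    (hγ : IsMachine₂ γ) : IsMachine₂ (fun c σ => if c = t then β c σ else γ c σ) := by
  refine ⟨?_, ?_⟩
  · have hc : Computable (fun p : ℕ × List ℕ => decide (p.1 = t)) := by
      have : Primrec (fun p : ℕ × List ℕ => decide (p.1 = t)) :=
        PrimrecPred.decide (Primrec.eq.comp Primrec.fst (Primrec.const t))
      exact this.to_comp
    refine (Computable.cond hc hβ.comp hγ.comp).of_eq ?_
    intro p
    by_cases h : p.1 = t <;> simp [h]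
  · intro c a b h
    by_cases hc : c = t
    · simp only [if_pos hc]; exact hβ.mono c a b h
    · simp only [if_neg hc]; exact hγ.mono c a b h

/-- Output a number computed from the parameter first. -/
lemma isMachine₂_cons {e : ℕ → ℕ} (he : Computable e) {α : List ℕ → List ℕ} (hα : IsMachine α) :
    IsMachine₂ (fun c σ => e c :: α σ) := by
  refine ⟨?_, fun c a b h => ?_⟩
  · exact Computable.list_cons.comp (he.comp Computable.fst) (hα.comp.comp Computable.snd)
  · exact (List.cons_prefix_cons).2 ⟨rfl, hα.mono a b h⟩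

/-- Iterate `χ ↦ B (π, t χ)` without its first two symbols `c + 1` times. -/
def itr (B : List ℕ → List ℕ) (t : ℕ) (β α : List ℕ → List ℕ) (c : ℕ) (σ : List ℕ) : List ℕ :=
  Nat.rec (α σ) (fun _ acc => (B (pr (β σ) (t :: acc))).tail.tail) (c + 1)

lemma isMachine₂_itr {B β α : List ℕ → List ℕ} (t : ℕ) (hB : IsMachine B) (hβ : IsMachine β)
    (hα : IsMachine α) : IsMachine₂ (itr B t β α) := by
  refine ⟨?_, ?_⟩
  · refine Computable.nat_rec (f := fun p : ℕ × List ℕ => p.1 + 1) (g := fun p => α p.2)
      (h := fun (p : ℕ × List ℕ) (q : ℕ × List ℕ) => (B (pr (β p.2) (t :: q.2))).tail.tail)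
      ?_ ?_ ?_
    · exact Computable.succ.comp Computable.fst
    · exact hα.comp.comp Computable.snd
    · refine (Primrec.list_tail.to_comp).comp ((Primrec.list_tail.to_comp).comp
        (hB.comp.comp (primrec_pr.to_comp.comp ?_ ?_)))
      · exact hβ.comp.comp (Computable.snd.comp Computable.fst)
      · exact Computable.list_cons.comp (Computable.const t) (Computable.snd.comp Computable.snd)
  · intro c a b h
    unfold itr
    generalize c + 1 = n
    induction n with
    | zero => exact hα.mono a b h
    | succ n ih =>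
      exact tail_mono (tail_mono (hB.mono _ _ (pr_mono (hβ.mono _ _ h)
        ((List.cons_prefix_cons).2 ⟨rfl, ih⟩))))

/-- One more round of the iteration is one round followed by the others. -/
lemma itr_succ (B : List ℕ → List ℕ) (t : ℕ) (β α : List ℕ → List ℕ) (c : ℕ) :
    itr B t β α (c + 1) = itr B t β (tl (tl fun σ => B (pr (β σ) (t :: α σ)))) c := by
  funext σ
  unfold itr
  have : ∀ n : ℕ, (Nat.rec (α σ) (fun _ acc => (B (pr (β σ) (t :: acc))).tail.tail) (n + 1) :
      List ℕ) = Nat.rec ((tl (tl fun σ => B (pr (β σ) (t :: α σ)))) σ)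
        (fun _ acc => (B (pr (β σ) (t :: acc))).tail.tail) n := by
    intro n
    induction n with
    | zero => rfl
    | succ n ih =>
      show (B (pr (β σ) (t :: (Nat.rec (α σ)
        (fun _ acc => (B (pr (β σ) (t :: acc))).tail.tail) (n + 1) : List ℕ)))).tail.tail = _
      rw [ih]
  exact this (c + 1)

lemma itr_zero (B : List ℕ → List ℕ) (t : ℕ) (β α : List ℕ → List ℕ) :
    itr B t β α 0 = tl (tl fun σ => B (pr (β σ) (t :: α σ))) := rfl

end Pool.Agent.X225.Tj
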