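import Pool.Agent.X225.Tj.Diag

/-! The totalizing jump distributes over the meet of two problems only if they are comparable. -/

namespace Pool.Agent.X225.Tj

open Pool.Agent.H190R3.Wei

lemma first_two {ψ : List ℕ → List ℕ} {x x' a a' : ℕ → ℕ} {m : ℕ} (h : init x m = init x' m)
    (h2 : 2 ≤ (ψ (init x m)).length) (ha : Maps ψ x a) (ha' : Maps ψ x' a') :
    a 0 = a' 0 ∧ a 1 = a' 1 := by
  have e1 := ha.1 m
  have e2 := ha'.1 m
  rw [← h] at e2
  have e3 : init a (ψ (init x m)).length = init a' (ψ (init x m)).length := e1.symm.trans e2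
  have g : ∀ i, i < (ψ (init x m)).length → a i = a' i := by
    intro i hi
    have := init_getD a _ i 0 hi
    rw [e3, init_getD a' _ i 0 hi] at this
    exact this.symm
  exact ⟨g 0 (by omega), g 1 (by omega)⟩

lemma init_congr' {x x' : ℕ → ℕ} {m : ℕ} (h : ∀ n, n < m → x n = x' n) :
    init x m = init x' m := by
  unfold init
  apply List.map_congr_left
  intro i hi
  exact h i (List.mem_range.1 hi)

lemma pair_agree {x x' y y' : ℕ → ℕ} {m : ℕ} (h : ∀ n, n < m → x n = x' n)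
    (h' : ∀ n, n < m → y n = y' n) : ∀ n, n < m → pair x y n = pair x' y' n := by
  intro n hn
  unfold pair
  split_ifs
  · exact h _ (by omega)
  · exact h' _ (by omega)

lemma PP_agree (F B : List ℕ → List ℕ) (k t v : ℕ) (z : ℕ → ℕ) :
    ∀ n, n < k → PP F B k t v z n = pair (pair (tb F) (tb B)) (fun _ => 0) n :=
  pair_agree (fun _ _ => rfl) (fun n hn => z0_lt k _ n hn)

/-- If the meet of the totalizing jumps is below the totalizing jump of the meet, then the two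
problems are comparable. -/
theorem comparable_of_le {f g hf hg hm : Problem} (Hf : IsTJ f hf) (Hg : IsTJ g hg)
    (Hm : IsTJ (meet f g) hm) (hle : meet hf hg ≤ hm) : f ≤ g ∨ g ≤ f := by
  obtain ⟨⟨h', ⟨h'le, -⟩, hm_le, -⟩, -⟩ := Hm
  have R : meet (T (D f 0)) (T (D g 1)) ≤ T h' :=
    (meet_mono (Hf.2 _ (D_le f 0) (le_D f 0)) (Hg.2 _ (D_le g 1) (le_D g 1))).trans
      (hle.trans hm_le)
  obtain ⟨Φ, Ψ, hΦ, hΨ, r⟩ := R
  obtain ⟨Φ0, Ψ0, hΦ0, hΨ0, r0⟩ := h'le
  -- every pair is an instance of the meet of the totalizations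
  have hinst : ∀ P Q : ℕ → ℕ, ((meet (T (D f 0)) (T (D g 1))).sol (pair P Q)).Nonempty := by
    intro P Q
    obtain ⟨y, hy⟩ := T_nonempty (D f 0) P
    exact ⟨_, tag0_mem_meet hy (T_nonempty (D g 1) Q)⟩
  -- the two machines which are put into the instances
  obtain ⟨F, hFdef⟩ : ∃ F : List ℕ → List ℕ, F = fun σ => Φ0 (Φ (pr σ σ)) := ⟨_, rfl⟩
  obtain ⟨B, hBdef⟩ : ∃ B : List ℕ → List ℕ, B = fun σ =>
    Ψ (pr (pr (ev σ) (ev σ)) (Ψ0 (pr (Φ (pr (ev σ) (ev σ))) (od σ)))) := ⟨_, rfl⟩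
  have mee : IsMachine (fun σ => pr (ev σ) (ev σ)) := isMachine_ev.pr isMachine_ev
  have mΦee : IsMachine (fun σ => Φ (pr (ev σ) (ev σ))) := hΦ.comp' mee
  have m0 : IsMachine (fun σ => pr (Φ (pr (ev σ) (ev σ))) (od σ)) := mΦee.pr isMachine_od
  have m1 : IsMachine (fun σ => Ψ0 (pr (Φ (pr (ev σ) (ev σ))) (od σ))) := hΨ0.comp' m0
  have hF : IsMachine F := by
    rw [hFdef]
    exact hΦ0.comp' (hΦ.comp' (isMachine_id.pr isMachine_id))
  have hB : IsMachine B := by
    rw [hBdef]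
    exact hΨ.comp' (mee.pr m1)
  -- an instance for which the answer is given by the first reduction
  have legit : ∀ P d, Maps Φ (pair P P) d → (h'.sol d).Nonempty →
      (∀ z ∈ (T h').sol d, ∃ w ∈ (meet (T (D f 0)) (T (D g 1))).sol (pair P P),
        Maps Ψ (pair (pair P P) z) w) →
      ∃ q0 q1, Maps F P (pair q0 q1) ∧ (f.sol q0).Nonempty ∧ (g.sol q1).Nonempty ∧
        ∀ s ∈ (meet f g).sol (pair q0 q1), ∃ a, Maps B (pair P s) a ∧
          a ∈ (meet (T (D f 0)) (T (D g 1))).sol (pair P P) := by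
    intro P d hd hne hr
    obtain ⟨q, hq, hqn, hq2⟩ := r0 d hne
    obtain ⟨q0, q1, rfl, hq0, hq1⟩ := meet_nonempty hqn
    refine ⟨q0, q1, ?_, hq0, hq1, fun s hs => ?_⟩
    · rw [hFdef]
      exact Maps.comp hΦ0 (Maps.comp hΦ (Maps.pr isMachine_id isMachine_id (maps_id P) (maps_id P))
        hd) hq
    · obtain ⟨c, hc, hc2⟩ := hq2 s hs
      obtain ⟨a, ha, ha2⟩ := hr c (fun _ => hc)
      refine ⟨a, ?_, ha⟩
      rw [hBdef]
      have e1 : Maps (fun σ => pr (ev σ) (ev σ)) (pair P s) (pair P P) :=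
        Maps.pr isMachine_ev isMachine_ev (maps_ev _ _) (maps_ev _ _)
      refine Maps.comp hΨ (Maps.pr mee m1 e1 ?_) ha2
      exact Maps.comp hΨ0 (Maps.pr mΦee isMachine_od (Maps.comp hΦ e1 hd) (maps_od _ _)) hc2
  -- the behaviour on the undecided instance
  obtain ⟨P0, hP0⟩ : ∃ P0, P0 = pair (pair (tb F) (tb B)) (fun _ => 0) := ⟨_, rfl⟩
  obtain ⟨d0, hd0, ⟨z0', hz0'⟩, hr0⟩ := r (pair P0 P0) (hinst P0 P0)
  obtain ⟨a0, ha0, ha0m⟩ := hr0 z0' hz0'
  obtain ⟨k, hk⟩ := ha0m.2 2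
  -- all solutions read off from instances close to it begin in the same way
  have close : ∀ (t v : ℕ) (z a : ℕ → ℕ),
      Maps Ψ (pair (pair (PP F B k t v z) (PP F B k t v z)) z0') a → a 0 = a0 0 ∧ a 1 = a0 1 := by
    intro t v z a ha
    have e : init (pair (pair P0 P0) z0') k =
        init (pair (pair (PP F B k t v z) (PP F B k t v z)) z0') k := by
      apply init_congr'
      have e1 : ∀ n, n < k → P0 n = PP F B k t v z n := fun n hn => by
        rw [hP0, PP_agree F B k t v z n hn]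
      exact pair_agree (pair_agree e1 e1) (fun _ _ => rfl)
    obtain ⟨h1, h2⟩ := first_two e hk ha0m ha
    exact ⟨h1.symm, h2.symm⟩
  have one_eq : ∀ (c : ℕ) (y : ℕ → ℕ), tag c y 1 = y 0 := fun c y => tag_succ' c y 0
  rcases mem_meet ha0 with ⟨y00, -, hy00⟩ | ⟨y00, -, hy00⟩
  · -- the tag is 0: `f ≤ g`
    left
    have ht0 : a0 0 = 0 := by rw [hy00, tag_zero']
    refine core (t := 0) (t' := 1) (v := a0 1) (k := k) (by omega) hF hB ?_
    intro z hz
    obtain ⟨P, hP⟩ : ∃ P, P = PP F B k 0 (a0 1) z := ⟨_, rfl⟩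
    have hHM : Maps HM P (tag (0 + 1) (tag (a0 1) z)) := by
      rw [hP]; exact maps_HM_PP F B k 0 (a0 1) z
    obtain ⟨hDn, hDs⟩ := D_simple hHM hz
    obtain ⟨d, hd, -, hr⟩ := r (pair P P) (hinst P P)
    have hne : (h'.sol d).Nonempty := by
      by_contra hcon
      obtain ⟨a, ha, ham⟩ := hr z0' (fun h => absurd h hcon)
      have hcl := close 0 (a0 1) z a (by rw [← hP]; exact ham)
      rcases mem_meet ha with ⟨y, hy, rfl⟩ | ⟨y, hy, rfl⟩
      · obtain ⟨x, hx, rfl⟩ := hDs y (mem_T hy hDn)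
        have := hcl.2
        rw [one_eq, tag_zero'] at this
        omega
      · have := hcl.1
        rw [tag_zero', ht0] at this
        omega
    obtain ⟨q0, q1, hFq, hq0, hq1, hall⟩ := legit P d hd hne hr
    have hG := maps_GM_PP hF (by rw [hP] at hFq; exact hFq)
    rw [← hP] at hG
    have hself := D_self (f := g) (τ := 1) (t := 0) (by omega) hHM hG.2 hq1 (by
      intro y hy
      obtain ⟨b, hb, -⟩ := hall (tag 1 y) (tag1_mem_meet hq0 hy)
      refine ⟨b, ?_⟩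
      rw [hP] at hb ⊢
      exact maps_BM_PP hB hb)
    rw [← hP]
    refine ⟨q1, Maps.comp (isMachine_prw 1) hFq (maps_prw_one q0 q1), hq1, fun y hy => ?_⟩
    obtain ⟨b, hb, hbm⟩ := hall (tag 1 y) (tag1_mem_meet hq0 hy)
    refine ⟨b, hb, ?_⟩
    rcases mem_meet hbm with ⟨s, hs, rfl⟩ | ⟨s, hs, rfl⟩
    · left
      obtain ⟨x, hx, rfl⟩ := hDs s (mem_T hs hDn)
      exact ⟨x, hx, rfl⟩
    · right
      obtain ⟨y', hy', b', hb', rfl⟩ := hself.2 s (mem_T hs hself.1)
      obtain ⟨b'', hb'', -⟩ := hall (tag 1 y') (tag1_mem_meet hq0 hy')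
      have hb3 : Maps (BM 1) (pair P y') b'' := by
        rw [hP] at hb'' ⊢
        exact maps_BM_PP hB hb''
      obtain rfl := Maps.unique hb' hb3
      exact ⟨y', hy', b', hb'', rfl⟩
  · -- the tag is 1: `g ≤ f`
    right
    have ht0 : a0 0 = 1 := by rw [hy00, tag_zero']
    refine core (t := 1) (t' := 0) (v := a0 1) (k := k) (by omega) hF hB ?_
    intro z hz
    obtain ⟨P, hP⟩ : ∃ P, P = PP F B k 1 (a0 1) z := ⟨_, rfl⟩
    have hHM : Maps HM P (tag (1 + 1) (tag (a0 1) z)) := by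
      rw [hP]; exact maps_HM_PP F B k 1 (a0 1) z
    obtain ⟨hDn, hDs⟩ := D_simple hHM hz
    obtain ⟨d, hd, -, hr⟩ := r (pair P P) (hinst P P)
    have hne : (h'.sol d).Nonempty := by
      by_contra hcon
      obtain ⟨a, ha, ham⟩ := hr z0' (fun h => absurd h hcon)
      have hcl := close 1 (a0 1) z a (by rw [← hP]; exact ham)
      rcases mem_meet ha with ⟨y, hy, rfl⟩ | ⟨y, hy, rfl⟩
      · have := hcl.1
        rw [tag_zero', ht0] at this
        omega
      · obtain ⟨x, hx, rfl⟩ := hDs y (mem_T hy hDn)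
        have := hcl.2
        rw [one_eq, tag_zero'] at this
        omega
    obtain ⟨q0, q1, hFq, hq0, hq1, hall⟩ := legit P d hd hne hr
    have hG := maps_GM_PP hF (by rw [hP] at hFq; exact hFq)
    rw [← hP] at hG
    have hself := D_self (f := f) (τ := 0) (t := 1) (by omega) hHM hG.1 hq0 (by
      intro y hy
      obtain ⟨b, hb, -⟩ := hall (tag 0 y) (tag0_mem_meet hy hq1)
      refine ⟨b, ?_⟩
      rw [hP] at hb ⊢
      exact maps_BM_PP hB hb)
    rw [← hP]
    refine ⟨q0, Maps.comp (isMachine_prw 0) hFq (maps_prw_zero q0 q1), hq0, fun y hy => ?_⟩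
    obtain ⟨b, hb, hbm⟩ := hall (tag 0 y) (tag0_mem_meet hy hq1)
    refine ⟨b, hb, ?_⟩
    rcases mem_meet hbm with ⟨s, hs, rfl⟩ | ⟨s, hs, rfl⟩
    · right
      obtain ⟨y', hy', b', hb', rfl⟩ := hself.2 s (mem_T hs hself.1)
      obtain ⟨b'', hb'', -⟩ := hall (tag 0 y') (tag0_mem_meet hy' hq1)
      have hb3 : Maps (BM 0) (pair P y') b'' := by
        rw [hP] at hb'' ⊢
        exact maps_BM_PP hB hb''
      obtain rfl := Maps.unique hb' hb3
      exact ⟨y', hy', b', hb'', rfl⟩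
    · left
      obtain ⟨x, hx, rfl⟩ := hDs s (mem_T hs hDn)
      exact ⟨x, hx, rfl⟩

end Pool.Agent.X225.Tj
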